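import Pool.Agent.H58.BL.Stm3
import Pool.Agent.H695.BL.Dec

/-!
# LOCR: classes modulo the centre, real case (helper864 for helper58)
-/

set_option autoImplicit false

open Finset Module

namespace Pool.Agent.H864.BL

open Pool.Agent.H58 Pool.Agent.H58.AG Pool.Agent.H58.BL

variable {n : ℕ} {G : Subgroup (EuclideanSpace ℝ (Fin n) ≃ₗᵢ[ℝ] EuclideanSpace ℝ (Fin n))}
  {V : Submodule ℝ (EuclideanSpace ℝ (Fin n))}

theorem app_inv (a : EuclideanSpace ℝ (Fin n) ≃ₗᵢ[ℝ] EuclideanSpace ℝ (Fin n))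
    (v : EuclideanSpace ℝ (Fin n)) : a (a⁻¹ v) = v := by
  show (a * a⁻¹) v = v
  rw [mul_inv_cancel]
  rfl

theorem inv_app (a : EuclideanSpace ℝ (Fin n) ≃ₗᵢ[ℝ] EuclideanSpace ℝ (Fin n))
    (v : EuclideanSpace ℝ (Fin n)) : a⁻¹ (a v) = v := by
  show (a⁻¹ * a) v = v
  rw [inv_mul_cancel]
  rfl

theorem nv_inv (hV : Inv G V) {a : EuclideanSpace ℝ (Fin n) ≃ₗᵢ[ℝ] EuclideanSpace ℝ (Fin n)}
    (ha : a ∈ NV G V) : a⁻¹ ∈ NV G V := by
  obtain ⟨h1, h2⟩ := ha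
  refine ⟨G.inv_mem h1, fun h hh v hv => ?_⟩
  have hw : a⁻¹ v ∈ V := hV _ (G.inv_mem h1) v hv
  have e := h2 h hh (a⁻¹ v) hw
  rw [app_inv] at e
  rw [← e, inv_app]

theorem nv_one : (1 : EuclideanSpace ℝ (Fin n) ≃ₗᵢ[ℝ] EuclideanSpace ℝ (Fin n)) ∈ NV G V :=
  ⟨G.one_mem, fun _ _ _ _ => rfl⟩

/-- a maximal system of pairwise inequivalent elements represents all the elements -/
theorem exists_system (hV : Inv G V) {B : ℕ}
    (hB : ∀ S : Finset (EuclideanSpace ℝ (Fin n) ≃ₗᵢ[ℝ] EuclideanSpace ℝ (Fin n)),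
      (∀ g ∈ S, g ∈ G) → (∀ g ∈ S, ∀ h ∈ S, g ≠ h → g⁻¹ * h ∉ NV G V) → S.card ≤ B) :
    ∃ S : Finset (EuclideanSpace ℝ (Fin n) ≃ₗᵢ[ℝ] EuclideanSpace ℝ (Fin n)),
      S.card ≤ B ∧ ∀ g ∈ G, ∃ s ∈ S, s⁻¹ * g ∈ NV G V := by
  classical
  set T : Set ℕ := {k | ∃ S : Finset (EuclideanSpace ℝ (Fin n) ≃ₗᵢ[ℝ] EuclideanSpace ℝ (Fin n)),
    (∀ g ∈ S, g ∈ G) ∧ (∀ g ∈ S, ∀ h ∈ S, g ≠ h → g⁻¹ * h ∉ NV G V) ∧ S.card = k} with hT
  have hne : T.Nonempty := ⟨0, ∅, by simp, by simp, by simp⟩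
  have hbd : BddAbove T := by
    refine ⟨B, ?_⟩
    rintro k ⟨S, h1, h2, h3⟩
    rw [← h3]
    exact hB S h1 h2
  obtain ⟨S, h1, h2, h3⟩ := Nat.sSup_mem hne hbd
  refine ⟨S, hB S h1 h2, fun g hg => ?_⟩
  by_cases hgS : g ∈ S
  · refine ⟨g, hgS, ?_⟩
    rw [inv_mul_cancel]
    exact nv_one
  · by_contra hc
    push Not at hc
    have h4 : (insert g S).card ∈ T := by
      refine ⟨insert g S, ?_, ?_, rfl⟩
      · intro x hx
        rcases mem_insert.mp hx with rfl | hx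
        · exact hg
        · exact h1 x hx
      · intro a ha b hb hab
        rcases mem_insert.mp ha with ha | ha <;> rcases mem_insert.mp hb with hb | hb
        · exact absurd (ha.trans hb.symm) hab
        · intro h5
          have h6 := nv_inv hV h5
          rw [mul_inv_rev, inv_inv, ha] at h6
          exact hc b hb h6
        · rw [hb]
          exact hc a ha
        · exact h2 a ha b hb hab
    have h5 := le_csSup hbd h4
    rw [card_insert_of_notMem hgS, ← h3] at h5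
    omega

/-- LOCR -/
theorem t_locr : S_LOCR := by
  intro hbes n G V hmin hcl hreal x0
  classical
  obtain ⟨S, hS, hrep⟩ := exists_system hmin.1 (hbes n G V hmin hcl hreal)
  have hP : ∀ g ∈ G, V.starProjection (g x0) = g (V.starProjection x0) := by
    intro g hg
    rw [Submodule.starProjection_apply, Submodule.starProjection_apply]
    exact Pool.Agent.H695.BL.proj_comm hmin.1 g hg x0
  have hwV : V.starProjection x0 ∈ V := by
    rw [Submodule.starProjection_apply]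
    exact (V.orthogonalProjectionOnto x0).2
  set w := V.starProjection x0 with hw
  have H : ∀ g ∈ G, ∃ s : S, ∃ σ : ℝ, σ * σ = 1 ∧ V.starProjection (g x0) = σ • (s : _ ≃ₗᵢ[ℝ] _) w := by
    intro g hg
    obtain ⟨s, hs, hsg⟩ := hrep g hg
    rw [hP g hg]
    rcases hreal _ hsg with h | h
    · refine ⟨⟨s, hs⟩, 1, by norm_num, ?_⟩
      have e : s⁻¹ (g w) = w := h w hwV
      show g w = (1 : ℝ) • s w
      rw [one_smul, ← app_inv s (g w), e]
    · refine ⟨⟨s, hs⟩, -1, by norm_num, ?_⟩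
      have e : s⁻¹ (g w) = -w := h w hwV
      show g w = (-1 : ℝ) • s w
      rw [neg_smul, one_smul, ← map_neg, ← e, app_inv]
  obtain ⟨s1, -⟩ := H 1 G.one_mem
  have H' : ∀ x : EuclideanSpace ℝ (Fin n), ∃ p : S × ℝ, (∃ g ∈ G, g x0 = x) →
      p.2 * p.2 = 1 ∧ V.starProjection x = p.2 • (p.1 : _ ≃ₗᵢ[ℝ] _) w := by
    intro x
    by_cases hx : ∃ g ∈ G, g x0 = x
    · obtain ⟨g, hg, rfl⟩ := hx
      obtain ⟨s, σ, h1, h2⟩ := H g hg
      exact ⟨(s, σ), fun _ => ⟨h1, h2⟩⟩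
    · exact ⟨(s1, 0), fun h => absurd h hx⟩
  choose p hp using H'
  obtain ⟨ι⟩ : Nonempty (S ↪ Fin (finrank ℝ V ^ 2)) := by
    refine Function.Embedding.nonempty_of_card_le ?_
    rw [Fintype.card_coe, Fintype.card_fin]
    exact hS
  refine ⟨fun x => ι (p x).1, fun x _ => (p x).2, fun g hg h hh => ?_⟩
  obtain ⟨a1, a2⟩ := hp (g x0) ⟨g, hg, rfl⟩
  obtain ⟨b1, b2⟩ := hp (h x0) ⟨h, hh, rfl⟩
  refine ⟨?_, fun hl => ?_⟩
  · unfold dt
    rw [Fin.sum_univ_one]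
    exact a1
  · have hl' : (p (g x0)).1 = (p (h x0)).1 := ι.injective hl
    rw [a2, b2, hl', inner_smul_left, inner_smul_right, real_inner_self_eq_norm_sq,
      LinearIsometryEquiv.norm_map]
    unfold dt
    rw [Fin.sum_univ_one]
    simp only [conj_trivial]
    ring

end Pool.Agent.H864.BL
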