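import Pool.Agent.H58.BL.Stm5

/-!
# NET: nets of the unit ball of a subspace (helper864 for helper58)
-/

set_option autoImplicit false

open Module Metric Set MeasureTheory
open scoped ENNReal

namespace Pool.Agent.H864.BL

theorem pack {E : Type*} [NormedAddCommGroup E] [NormedSpace ℝ E] [FiniteDimensional ℝ E]
    {ε : ℝ} (hε : 0 < ε) (s : Finset E) (hs : ∀ c ∈ s, ‖c‖ ≤ 1)
    (h : ∀ c ∈ s, ∀ d ∈ s, c ≠ d → ε / 2 ≤ ‖c - d‖) :
    (s.card : ℝ) ≤ (1 + 4 / ε) ^ finrank ℝ E := by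
  borelize E
  let μ : Measure E := Measure.addHaar
  set δ : ℝ := ε / 4 with hδ
  set ρ : ℝ := 1 + ε / 4 with hρ
  have δpos : 0 < δ := by positivity
  have ρpos : 0 < ρ := by positivity
  set A := ⋃ c ∈ s, ball (c : E) δ with hA
  have D : Set.Pairwise (s : Set E) (Function.onFun Disjoint fun c => ball (c : E) δ) := by
    rintro c hc d hd hcd
    apply ball_disjoint_ball
    rw [dist_eq_norm]
    have h1 := h c hc d hd hcd
    rw [hδ]
    linarith
  have A_subset : A ⊆ ball (0 : E) ρ := by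
    refine iUnion₂_subset fun x hx => ?_
    apply ball_subset_ball'
    rw [dist_zero_right, hρ, hδ]
    linarith [hs x hx]
  have I :
    (s.card : ℝ≥0∞) * ENNReal.ofReal (δ ^ finrank ℝ E) * μ (ball 0 1) ≤
      ENNReal.ofReal (ρ ^ finrank ℝ E) * μ (ball 0 1) :=
    calc
      (s.card : ℝ≥0∞) * ENNReal.ofReal (δ ^ finrank ℝ E) * μ (ball 0 1) = μ A := by
        rw [hA, measure_biUnion_finset D fun c _ => measurableSet_ball]
        simp only [μ.addHaar_ball_of_pos _ δpos]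
        simp only [Finset.sum_const, nsmul_eq_mul, mul_assoc]
      _ ≤ μ (ball (0 : E) ρ) := measure_mono A_subset
      _ = ENNReal.ofReal (ρ ^ finrank ℝ E) * μ (ball 0 1) := by
        simp only [μ.addHaar_ball_of_pos _ ρpos]
  have J : (s.card : ℝ≥0∞) * ENNReal.ofReal (δ ^ finrank ℝ E) ≤ ENNReal.ofReal (ρ ^ finrank ℝ E) :=
    (ENNReal.mul_le_mul_iff_left (measure_ball_pos _ _ zero_lt_one).ne' measure_ball_lt_top.ne).1 I
  have K := ENNReal.toReal_le_of_le_ofReal (pow_nonneg ρpos.le _) J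
  rw [ENNReal.toReal_mul, ENNReal.toReal_natCast,
    ENNReal.toReal_ofReal (pow_nonneg δpos.le _)] at K
  have e : (1 + 4 / ε) = ρ / δ := by
    rw [hρ, hδ]
    field_simp
    ring
  rw [e, div_pow, le_div_iff₀ (pow_pos δpos _)]
  exact K

theorem t_net : Pool.Agent.H58.BL.S_NET := by
  intro δ hδ
  refine ⟨1 + 4 / δ, by linarith [show 0 < 4 / δ by positivity], fun n U => ?_⟩
  classical
  set T : Set ℕ := {k | ∃ S : Finset U, (∀ c ∈ S, ‖c‖ ≤ 1) ∧
    (∀ c ∈ S, ∀ d ∈ S, c ≠ d → δ / 2 ≤ ‖c - d‖) ∧ S.card = k} with hT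
  have hne : T.Nonempty := ⟨0, ∅, by simp, by simp, by simp⟩
  have hbd : BddAbove T := by
    refine ⟨⌈(1 + 4 / δ) ^ finrank ℝ U⌉₊, ?_⟩
    rintro k ⟨S, h1, h2, h3⟩
    rw [← h3]
    have h4 := pack hδ S h1 h2
    exact_mod_cast h4.trans (Nat.le_ceil _)
  obtain ⟨S, h1, h2, h3⟩ := Nat.sSup_mem hne hbd
  have hrep : ∀ x : U, ‖x‖ ≤ 1 → ∃ c : S, ‖x - (c : U)‖ ≤ δ / 2 := by
    intro x hx
    by_contra hc
    push Not at hc
    have hxS : x ∉ S := by
      intro hxS
      have h4 := hc ⟨x, hxS⟩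
      rw [sub_self, norm_zero] at h4
      linarith
    have h4 : (insert x S).card ∈ T := by
      refine ⟨insert x S, ?_, ?_, rfl⟩
      · intro c hcS
        rcases Finset.mem_insert.mp hcS with rfl | hcS
        · exact hx
        · exact h1 c hcS
      · intro c hcS d hdS hcd
        rcases Finset.mem_insert.mp hcS with hcx | hcS <;>
          rcases Finset.mem_insert.mp hdS with hdx | hdS
        · exact absurd (hcx.trans hdx.symm) hcd
        · rw [hcx]
          exact (hc ⟨d, hdS⟩).le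
        · rw [hdx, norm_sub_rev]
          exact (hc ⟨c, hcS⟩).le
        · exact h2 c hcS d hdS hcd
    have h5 := le_csSup hbd h4
    rw [Finset.card_insert_of_notMem hxS, ← h3] at h5
    omega
  obtain ⟨c0, -⟩ := hrep 0 (by rw [norm_zero]; norm_num)
  have H : ∀ x : EuclideanSpace ℝ (Fin n), ∃ c : S, x ∈ U → ‖x‖ ≤ 1 →
      ‖x - ((c : U) : EuclideanSpace ℝ (Fin n))‖ ≤ δ / 2 := by
    intro x
    by_cases hx : x ∈ U ∧ ‖x‖ ≤ 1
    · obtain ⟨c, hc⟩ := hrep ⟨x, hx.1⟩ hx.2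
      exact ⟨c, fun _ _ => hc⟩
    · exact ⟨c0, fun h4 h5 => absurd ⟨h4, h5⟩ hx⟩
  choose f hf using H
  have hcard : Fintype.card S = S.card := Fintype.card_coe S
  refine ⟨S.card, fun x => Fin.cast hcard (Fintype.equivFin S (f x)), pack hδ S h1 h2, ?_⟩
  intro x hx y hy hx1 hy1 hxy
  have h4 : f x = f y := by
    have h5 := Fin.cast_injective hcard hxy
    exact (Fintype.equivFin S).injective h5
  have h5 := hf x hx hx1
  have h6 := hf y hy hy1
  rw [← h4] at h6
  calc ‖x - y‖ = ‖(x - ((f x : U) : EuclideanSpace ℝ (Fin n))) -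
        (y - ((f x : U) : EuclideanSpace ℝ (Fin n)))‖ := by congr 1; abel
    _ ≤ ‖x - ((f x : U) : EuclideanSpace ℝ (Fin n))‖ +
        ‖y - ((f x : U) : EuclideanSpace ℝ (Fin n))‖ := norm_sub_le _ _
    _ ≤ δ := by linarith

end Pool.Agent.H864.BL
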